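import Pool.Agent.W187.WP.Stmts

/-!
# Two-sided Laplace transforms of compactly supported functions
-/

open Complex MeasureTheory Set Filter Topology

namespace Pool.Agent.W8.WP

open Pool.Agent.W187.WP (lap)

variable {g : ℝ → ℂ}

theorem int_mul (hg : Continuous g) (hc : HasCompactSupport g) {f : ℝ → ℂ} (hf : Continuous f) :
    Integrable (fun u => g u * f u) :=
  (hg.mul hf).integrable_of_hasCompactSupport (hc.mul_right)

theorem lap_hasDeriv (hg : Continuous g) (hc : HasCompactSupport g) (z : ℂ) :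
    HasDerivAt (lap g) (∫ u : ℝ, g u * (cexp (z * u) * u)) z := by
  have hb : Integrable (fun u : ℝ => ‖g u * ((Real.exp ((|z.re| + 1) * |u|) * |u| : ℝ) : ℂ)‖) := by
    refine (int_mul hg hc ?_).norm
    exact Complex.continuous_ofReal.comp (by fun_prop)
  have h := hasDerivAt_integral_of_dominated_loc_of_deriv_le (μ := (volume : Measure ℝ))
    (F := fun (w : ℂ) (u : ℝ) => g u * cexp (w * u))
    (F' := fun (w : ℂ) (u : ℝ) => g u * (cexp (w * u) * u)) (x₀ := z)
    (s := Metric.ball z 1)
    (bound := fun u : ℝ => ‖g u * ((Real.exp ((|z.re| + 1) * |u|) * |u| : ℝ) : ℂ)‖)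
    (Metric.ball_mem_nhds z one_pos)
    (Eventually.of_forall fun w =>
      (int_mul hg hc (by fun_prop)).aestronglyMeasurable)
    (int_mul hg hc (by fun_prop))
    (int_mul hg hc (by fun_prop)).aestronglyMeasurable
    ?_ hb ?_
  · exact h.2
  · refine Eventually.of_forall fun u w hw => ?_
    rw [norm_mul, norm_mul, norm_mul, Complex.norm_exp, Complex.norm_real, Complex.norm_real]
    refine mul_le_mul_of_nonneg_left ?_ (norm_nonneg _)
    rw [Real.norm_eq_abs, Real.norm_eq_abs, abs_of_nonneg (a := Real.exp ((|z.re| + 1) * |u|) * |u|)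
      (by positivity)]
    refine mul_le_mul_of_nonneg_right ?_ (abs_nonneg _)
    rw [Real.exp_le_exp]
    have h1 : (w * u).re = w.re * u := by simp
    rw [h1]
    refine (le_abs_self _).trans ?_
    rw [abs_mul]
    refine mul_le_mul_of_nonneg_right ?_ (abs_nonneg _)
    have h2 : |w.re - z.re| ≤ 1 := by
      have h3 := Complex.abs_re_le_norm (w - z)
      rw [Metric.mem_ball, dist_eq_norm] at hw
      simp only [sub_re] at h3
      linarith
    have h4 : |w.re| ≤ |w.re - z.re| + |z.re| := by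
      have := abs_add_le (w.re - z.re) z.re
      simpa using this
    linarith
  · refine Eventually.of_forall fun u w _ => ?_
    have h1 : HasDerivAt (fun w : ℂ => w * (u : ℂ)) (u : ℂ) w := by
      simpa using (hasDerivAt_id w).mul_const (u : ℂ)
    exact (h1.cexp).const_mul (g u)

theorem lap_diff (hg : Continuous g) (hc : HasCompactSupport g) : Differentiable ℂ (lap g) :=
  fun z => (lap_hasDeriv hg hc z).differentiableAt

/-- integration by parts -/
theorem lap_parts (hg : ContDiff ℝ 1 g) (hc : HasCompactSupport g) (z : ℂ) :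
    lap (deriv g) z = - (z * lap g z) := by
  have hd : ∀ u : ℝ, HasDerivAt (fun u : ℝ => g u * cexp (z * u))
      (deriv g u * cexp (z * u) + g u * (cexp (z * u) * z)) u := by
    intro u
    have h1 : HasDerivAt g (deriv g u) u := (hg.differentiable one_ne_zero u).hasDerivAt
    have h2 : HasDerivAt (fun u : ℝ => z * (u : ℂ)) z u := by
      simpa using (Complex.ofRealCLM.hasDerivAt (x := u)).const_mul z
    exact h1.mul h2.cexp
  have hg' : Continuous (deriv g) := hg.continuous_deriv le_rfl
  have i1 : Integrable (fun u : ℝ => deriv g u * cexp (z * u)) :=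
    int_mul hg' hc.deriv (by fun_prop)
  have i2 : Integrable (fun u : ℝ => g u * (cexp (z * u) * z)) :=
    int_mul hg.continuous hc (by fun_prop)
  have h := integral_eq_zero_of_hasDerivAt_of_integrable hd (i1.add i2)
    (int_mul hg.continuous hc (by fun_prop))
  rw [integral_add i1 i2] at h
  have e : ∫ u : ℝ, g u * (cexp (z * u) * z) = z * lap g z := by
    unfold lap
    rw [← integral_const_mul]
    congr 1
    funext u
    ring
  rw [e] at h
  unfold lap at h ⊢
  linear_combination h

theorem lap_parts2 (hg : ContDiff ℝ 2 g) (hc : HasCompactSupport g) (z : ℂ) :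
    lap (deriv (deriv g)) z = z ^ 2 * lap g z := by
  have h1 : ContDiff ℝ 1 (deriv g) := by
    have := (contDiff_succ_iff_deriv (n := 1)).1 hg
    exact this.2.2
  rw [lap_parts h1 hc.deriv, lap_parts (hg.of_le (by norm_num)) hc]
  ring

theorem lap_bdd (hg : Continuous g) (hc : HasCompactSupport g) (R : ℝ) :
    ∃ M : ℝ, 0 ≤ M ∧ ∀ z : ℂ, |z.re| ≤ R → ‖lap g z‖ ≤ M := by
  have hi : Integrable (fun u : ℝ => ‖g u * ((Real.exp (R * |u|) : ℝ) : ℂ)‖) := by
    refine (int_mul hg hc ?_).norm
    exact Complex.continuous_ofReal.comp (by fun_prop)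
  refine ⟨∫ u : ℝ, ‖g u * ((Real.exp (R * |u|) : ℝ) : ℂ)‖, integral_nonneg fun u => norm_nonneg _,
    fun z hz => ?_⟩
  unfold lap
  refine norm_integral_le_of_norm_le hi (Eventually.of_forall fun u => ?_)
  rw [norm_mul, norm_mul, Complex.norm_exp, Complex.norm_real]
  refine mul_le_mul_of_nonneg_left ?_ (norm_nonneg _)
  rw [Real.norm_eq_abs, abs_of_nonneg (Real.exp_pos _).le, Real.exp_le_exp]
  have h1 : (z * u).re = z.re * u := by simp
  rw [h1]
  refine (le_abs_self _).trans ?_
  rw [abs_mul]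
  exact mul_le_mul_of_nonneg_right hz (abs_nonneg _)

/-- quadratic decay in vertical strips -/
theorem lap_decay (hg : ContDiff ℝ 2 g) (hc : HasCompactSupport g) (R : ℝ) :
    ∃ C : ℝ, 0 < C ∧ ∀ z : ℂ, |z.re| ≤ R → ‖lap g z‖ ≤ C / (1 + z.im ^ 2) := by
  obtain ⟨M, hM, h1⟩ := lap_bdd hg.continuous hc R
  have hg1 : ContDiff ℝ 1 (deriv g) := ((contDiff_succ_iff_deriv (n := 1)).1 hg).2.2
  obtain ⟨M2, hM2, h2⟩ := lap_bdd (hg1.continuous_deriv le_rfl) hc.deriv.deriv R
  refine ⟨M + M2 + 1, by positivity, fun z hz => ?_⟩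
  have h3 := h1 z hz
  have h4 := h2 z hz
  rw [lap_parts2 hg hc, norm_mul, norm_pow] at h4
  rw [le_div_iff₀ (by positivity)]
  have h5 : z.im ^ 2 ≤ ‖z‖ ^ 2 := by
    rw [← Complex.normSq_eq_norm_sq, Complex.normSq_apply]
    nlinarith [sq_nonneg z.re]
  nlinarith [norm_nonneg (lap g z)]

end Pool.Agent.W8.WP
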