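import Pool.Agent.W8.WP.ZrSum
import Pool.Agent.W8.WP.LapB

/-!
# The sum over the zeros as an integral over `Re s = 3/2`
-/

open Complex MeasureTheory Set Filter Topology

namespace Pool.Agent.W8.WP

open Pool.Agent.W187.WP (Zr lap LL mult S_EF1)

theorem bound_cmp (v : ℝ) : (1 + |v|) ^ (1 / 2 : ℝ) / (1 + v ^ 2) ≤ 2 * (1 + ‖v‖) ^ (-(3 / 2) : ℝ) := by
  have h0 : 0 < 1 + |v| := by positivity
  rw [Real.norm_eq_abs, div_le_iff₀ (by positivity)]
  have h1 : (1 + |v|) ^ 2 ≤ 2 * (1 + v ^ 2) := by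
    rw [← sq_abs v]
    nlinarith [sq_nonneg (|v| - 1)]
  have h2 : (1 + |v|) ^ (1 / 2 : ℝ) = (1 + |v|) ^ (-(3 / 2) : ℝ) * (1 + |v|) ^ 2 := by
    rw [← Real.rpow_natCast (1 + |v|) 2, ← Real.rpow_add h0]
    norm_num
  rw [h2]
  have h3 : 0 < (1 + |v|) ^ (-(3 / 2) : ℝ) := Real.rpow_pos_of_pos h0 _
  nlinarith

theorem log_sq_tendsto : Tendsto (fun n : ℕ => (Real.log n) ^ 2 / (n : ℝ)) atTop (𝓝 0) := by
  have h := (Real.isLittleO_pow_log_id_atTop (n := 2)).tendsto_div_nhds_zero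
  exact h.comp tendsto_natCast_atTop_atTop

theorem ef1 : S_EF1 := by
  classical
  intro g hg hc
  set h : ℂ → ℂ := fun s => lap g (s - 1 / 2) with hh
  have hlap : Differentiable ℂ (lap g) := lap_diff hg.continuous hc
  have hd : Differentiable ℂ h := hlap.comp (by fun_prop)
  obtain ⟨C, hC, hdec⟩ := lap_decay hg hc 1
  have hbd : ∀ s : ℂ, -1 / 2 ≤ s.re → s.re ≤ 3 / 2 → ‖h s‖ ≤ C / (1 + s.im ^ 2) := by
    intro s h1 h2
    have h3 := hdec (s - 1 / 2) (by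
      have e : (s - 1 / 2).re = s.re - 1 / 2 := by
        rw [sub_re]
        norm_num
      rw [e, abs_le]
      constructor <;> linarith)
    have e : (s - 1 / 2).im = s.im := by
      rw [sub_im]
      norm_num
    rw [e] at h3
    exact h3
  -- summability
  have hsum : Summable (fun ρ : Zr => (mult (ρ : ℂ) : ℂ) * h ρ) := by
    refine Summable.of_norm_bounded (zr_summable.mul_left C) fun ρ => ?_
    rw [norm_mul, Complex.norm_natCast]
    have h1 := hbd ρ (by linarith [ρ.2.2.1]) (by linarith [ρ.2.2.2])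
    calc (mult (ρ : ℂ) : ℝ) * ‖h ρ‖ ≤ (mult (ρ : ℂ) : ℝ) * (C / (1 + (ρ : ℂ).im ^ 2)) := by
          gcongr
      _ = C * ((mult (ρ : ℂ) : ℝ) / (1 + (ρ : ℂ).im ^ 2)) := by ring
  -- the integrand on the line
  set H : ℝ → ℂ := fun v => h (3 / 2 + v * I) + h (-1 / 2 - v * I) with hH
  have hHb : ∀ v : ℝ, ‖H v‖ ≤ 2 * C / (1 + v ^ 2) := by
    intro v
    have h1 := hbd (3 / 2 + v * I) (by simp; norm_num) (by simp)
    have h2 := hbd (-1 / 2 - v * I) (by simp) (by simp; norm_num)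
    have e1 : (3 / 2 + v * I : ℂ).im = v := by simp
    have e2 : (-1 / 2 - v * I : ℂ).im = -v := by simp
    rw [e1] at h1
    rw [e2, neg_sq] at h2
    calc ‖H v‖ ≤ ‖h (3 / 2 + v * I)‖ + ‖h (-1 / 2 - v * I)‖ := norm_add_le _ _
      _ ≤ C / (1 + v ^ 2) + C / (1 + v ^ 2) := add_le_add h1 h2
      _ = 2 * C / (1 + v ^ 2) := by ring
  have hHc : Continuous H := by
    have := hd.continuous
    rw [hH]
    fun_prop
  obtain ⟨K, hK, hXL⟩ := XL_right
  have hre : ∀ v : ℝ, (3 / 2 + v * I : ℂ).re = 3 / 2 := by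
    intro v
    simp
  have hneR : ∀ v : ℝ, Xi (3 / 2 + v * I) ≠ 0 := by
    intro v h
    rw [Xi_mem] at h
    have := h.2.2
    rw [hre] at this
    norm_num at this
  have hcont : Continuous (fun v : ℝ => XL (3 / 2 + v * I)) := by
    unfold XL
    have h1 : Continuous (deriv Xi) := by
      have : ContDiff ℂ 1 Xi := Xi_diff.contDiff
      exact this.continuous_deriv le_rfl
    have h2 : Continuous (fun v : ℝ => (3 / 2 + v * I : ℂ)) := by fun_prop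
    exact (h1.comp h2).div (Xi_diff.continuous.comp h2) hneR
  have hint : Integrable (fun v : ℝ => XL (3 / 2 + v * I) * H v) := by
    have hdom : Integrable (fun v : ℝ => 4 * K * C * (1 + ‖v‖) ^ (-(3 / 2) : ℝ)) := by
      refine (integrable_one_add_norm ?_).const_mul _
      rw [Module.finrank_self]
      norm_num
    refine hdom.mono' (hcont.mul hHc).aestronglyMeasurable (Eventually.of_forall fun v => ?_)
    rw [norm_mul]
    have h1 := hXL v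
    have h2 := hHb v
    have h3 := bound_cmp v
    calc ‖XL (3 / 2 + v * I)‖ * ‖H v‖ ≤ (K * (1 + |v|) ^ (1 / 2 : ℝ)) * (2 * C / (1 + v ^ 2)) := by
          gcongr
      _ = 2 * K * C * ((1 + |v|) ^ (1 / 2 : ℝ) / (1 + v ^ 2)) := by ring
      _ ≤ 2 * K * C * (2 * (1 + ‖v‖) ^ (-(3 / 2) : ℝ)) := by gcongr
      _ = 4 * K * C * (1 + ‖v‖) ^ (-(3 / 2) : ℝ) := by ring
  -- heights
  obtain ⟨A, hA, hgh⟩ := good_height
  have hgh' : ∀ n : ℕ, ∃ U : ℝ, (n : ℝ) + 3 ≤ U ∧ U ≤ (n : ℝ) + 4 ∧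
      ∀ σ ∈ Set.Icc (-1 / 2 : ℝ) (3 / 2),
      (Xi (⟨σ, U⟩ : ℂ) ≠ 0 ∧ ‖XL (⟨σ, U⟩ : ℂ)‖ ≤ A * (Real.log (n + 3)) ^ 2) ∧
      (Xi (⟨σ, -U⟩ : ℂ) ≠ 0 ∧ ‖XL (⟨σ, -U⟩ : ℂ)‖ ≤ A * (Real.log (n + 3)) ^ 2) := by
    intro n
    obtain ⟨U, hU, h1⟩ := hgh (n + 3) (by linarith [(Nat.cast_nonneg n : (0 : ℝ) ≤ n)])
    exact ⟨U, hU.1, by linarith [hU.2], h1⟩
  choose U hU1 hU2 hU3 using hgh'
  have hU0 : ∀ n, 0 < U n := fun n => by
    have := hU1 n
    have h2 : (0 : ℝ) ≤ n := Nat.cast_nonneg n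
    linarith
  have hUtop : Tendsto U atTop atTop := by
    refine tendsto_atTop_mono (fun n => ?_) tendsto_natCast_atTop_atTop
    linarith [hU1 n]
  -- left hand side
  have hrect := fun n => rect (U n) (hU0 n)
    (fun σ hσ => ⟨(hU3 n σ hσ).1.1, (hU3 n σ hσ).2.1⟩) h hd
  -- the finite sums tend to the full sum
  have hfs : ∀ n, ∑ᶠ s ∈ ZU (U n), (mult s : ℂ) * h s =
      ∑' ρ : Zr, (if |(ρ : ℂ).im| < U n then (mult (ρ : ℂ) : ℂ) * h ρ else 0) := by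
    intro n
    have hfin := ZU_finite (U n)
    rw [finsum_mem_eq_finite_toFinset_sum _ hfin]
    have hsub : ∀ s ∈ hfin.toFinset, s ∈ Zr := fun s hs => ((Set.Finite.mem_toFinset _).1 hs).1
    rw [tsum_eq_sum (s := hfin.toFinset.subtype (· ∈ Zr))]
    · rw [← Finset.sum_subtype_of_mem (p := (· ∈ Zr)) (fun s => (mult s : ℂ) * h s) hsub]
      refine Finset.sum_congr rfl fun ρ hρ => ?_
      rw [Finset.mem_subtype, Set.Finite.mem_toFinset] at hρ
      rw [if_pos hρ.2]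
    · intro ρ hρ
      rw [Finset.mem_subtype, Set.Finite.mem_toFinset] at hρ
      rw [if_neg]
      intro hlt
      exact hρ ⟨ρ.2, hlt⟩
  have hlim1 : Tendsto (fun n => ∑ᶠ s ∈ ZU (U n), (mult s : ℂ) * h s) atTop
      (𝓝 (∑' ρ : Zr, (mult (ρ : ℂ) : ℂ) * h ρ)) := by
    simp_rw [hfs]
    refine tendsto_tsum_of_dominated_convergence (bound := fun ρ : Zr =>
      ‖(mult (ρ : ℂ) : ℂ) * h ρ‖) hsum.norm ?_ ?_
    · intro ρ
      refine tendsto_const_nhds.congr' ?_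
      filter_upwards [hUtop.eventually_gt_atTop |(ρ : ℂ).im|] with n hn
      rw [if_pos hn]
    · refine Eventually.of_forall fun n ρ => ?_
      by_cases hlt : |(ρ : ℂ).im| < U n
      · rw [if_pos hlt]
      · rw [if_neg hlt, norm_zero]
        exact norm_nonneg _
  -- the vertical integral
  have hlim2 : Tendsto (fun n => ∫ y in (-(U n))..(U n), XL (3 / 2 + y * I) * H y) atTop
      (𝓝 (∫ v : ℝ, XL (3 / 2 + v * I) * H v)) :=
    intervalIntegral_tendsto_integral hint (tendsto_neg_atTop_atBot.comp hUtop) hUtop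
  -- the horizontal integrals
  have hhor : ∀ n, ‖(∫ x in (-1 / 2 : ℝ)..(3 / 2), XL (⟨x, -(U n)⟩ : ℂ) * h ⟨x, -(U n)⟩)
      - (∫ x in (-1 / 2 : ℝ)..(3 / 2), XL (⟨x, U n⟩ : ℂ) * h ⟨x, U n⟩)‖ ≤
      4 * A * C * ((Real.log ((n + 3 : ℕ) : ℝ)) ^ 2 / ((n + 3 : ℕ) : ℝ)) := by
    intro n
    have hn0 : (0 : ℝ) ≤ n := Nat.cast_nonneg n
    have hUn : (n : ℝ) + 3 ≤ 1 + (U n) ^ 2 := by
      have := hU1 n
      nlinarith
    have b : ∀ x ∈ Set.uIoc (-1 / 2 : ℝ) (3 / 2), ∀ W : ℝ, W ^ 2 = (U n) ^ 2 →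
        ‖XL (⟨x, W⟩ : ℂ)‖ ≤ A * (Real.log (n + 3)) ^ 2 →
        ‖XL (⟨x, W⟩ : ℂ) * h ⟨x, W⟩‖ ≤ A * C * ((Real.log (n + 3)) ^ 2 / (n + 3)) := by
      intro x hx W hW hXW
      rw [Set.uIoc_of_le (by norm_num)] at hx
      have h1 := hbd ⟨x, W⟩ (by simpa using hx.1.le) (by simpa using hx.2)
      simp only at h1
      rw [hW] at h1
      rw [norm_mul]
      calc ‖XL (⟨x, W⟩ : ℂ)‖ * ‖h ⟨x, W⟩‖ ≤ (A * (Real.log (n + 3)) ^ 2) * (C / (1 + (U n) ^ 2)) := by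
            gcongr
        _ ≤ (A * (Real.log (n + 3)) ^ 2) * (C / (n + 3)) := by
            gcongr
        _ = A * C * ((Real.log (n + 3)) ^ 2 / (n + 3)) := by ring
    have c1 := intervalIntegral.norm_integral_le_of_norm_le_const
      (f := fun x : ℝ => XL (⟨x, -(U n)⟩ : ℂ) * h ⟨x, -(U n)⟩) (a := -1 / 2) (b := 3 / 2)
      (C := A * C * ((Real.log (n + 3)) ^ 2 / (n + 3))) (fun x hx => b x hx (-(U n)) (by ring)
        (hU3 n x (by
          rw [Set.uIoc_of_le (by norm_num)] at hx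
          exact ⟨hx.1.le, hx.2⟩)).2.2)
    have c2 := intervalIntegral.norm_integral_le_of_norm_le_const
      (f := fun x : ℝ => XL (⟨x, U n⟩ : ℂ) * h ⟨x, U n⟩) (a := -1 / 2) (b := 3 / 2)
      (C := A * C * ((Real.log (n + 3)) ^ 2 / (n + 3))) (fun x hx => b x hx (U n) rfl
        (hU3 n x (by
          rw [Set.uIoc_of_le (by norm_num)] at hx
          exact ⟨hx.1.le, hx.2⟩)).1.2)
    have e : |(3 / 2 : ℝ) - (-1 / 2)| = 2 := by norm_num
    rw [e] at c1 c2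
    refine (norm_sub_le _ _).trans ((add_le_add c1 c2).trans (le_of_eq ?_))
    push_cast
    ring
  have hlim3 : Tendsto (fun n => (∫ x in (-1 / 2 : ℝ)..(3 / 2), XL (⟨x, -(U n)⟩ : ℂ) * h ⟨x, -(U n)⟩)
      - (∫ x in (-1 / 2 : ℝ)..(3 / 2), XL (⟨x, U n⟩ : ℂ) * h ⟨x, U n⟩)) atTop (𝓝 0) := by
    refine squeeze_zero_norm hhor ?_
    have h1 := (log_sq_tendsto.comp (tendsto_add_atTop_nat 3)).const_mul (4 * A * C)
    rw [mul_zero] at h1
    exact h1
  -- conclusion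
  have hlim4 := (hlim3.add (hlim2.const_mul I))
  have hlim5 := hlim1.const_mul (2 * Real.pi * I)
  have heq : (2 * Real.pi * I : ℂ) * (∑' ρ : Zr, (mult (ρ : ℂ) : ℂ) * h ρ) =
      0 + I * ∫ v : ℝ, XL (3 / 2 + v * I) * H v := by
    refine tendsto_nhds_unique hlim5 (hlim4.congr fun n => ?_)
    exact (hrect n).2
  have hval : (∑' ρ : Zr, (mult (ρ : ℂ) : ℂ) * h ρ) =
      (1 / (2 * Real.pi) : ℝ) * ∫ v : ℝ, LL (3 / 2 + v * I) *
      (lap g (1 + v * I) + lap g (-1 - v * I)) := by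
    have e1 : ∫ v : ℝ, LL (3 / 2 + v * I) * (lap g (1 + v * I) + lap g (-1 - v * I)) =
        ∫ v : ℝ, XL (3 / 2 + v * I) * H v := by
      congr 1
      funext v
      rw [XL_LL (by rw [hre]; norm_num)]
      simp only [hH, hh]
      congr 3
      · ring
      · ring
    rw [e1]
    have hpi : (Real.pi : ℂ) ≠ 0 := by exact_mod_cast Real.pi_ne_zero
    rw [zero_add] at heq
    have h2 : (2 * Real.pi : ℂ) * (∑' ρ : Zr, (mult (ρ : ℂ) : ℂ) * h ρ) =
        ∫ v : ℝ, XL (3 / 2 + v * I) * H v := by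
      have h3 := congrArg (fun z => -I * z) heq
      linear_combination h3 + ((2 * Real.pi : ℂ) * (∑' ρ : Zr, (mult (ρ : ℂ) : ℂ) * h ρ) -
        ∫ v : ℝ, XL (3 / 2 + v * I) * H v) * I_sq
    rw [← h2]
    push_cast
    field_simp
  rw [← hval]
  exact hsum.hasSum

end Pool.Agent.W8.WP
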