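import Pool.Agent.W8.WP.XiA

/-!
# Summability over the zeros
-/

open Complex MeasureTheory Set Filter Topology

namespace Pool.Agent.W8.WP

open Pool.Agent.W187.WP (Zr lap LL mult)

/-- zeros up to height `U` -/
def ZU (U : ℝ) : Set ℂ := {s | s ∈ Zr ∧ |s.im| < U}

theorem rect (U : ℝ) (hU : 0 < U) (hne : ∀ σ ∈ Set.Icc (-1 / 2 : ℝ) (3 / 2),
    Xi (⟨σ, U⟩ : ℂ) ≠ 0 ∧ Xi (⟨σ, -U⟩ : ℂ) ≠ 0) (h : ℂ → ℂ) (hh : Differentiable ℂ h) :
    (ZU U).Finite ∧
    (∫ x in (-1 / 2 : ℝ)..(3 / 2), XL (⟨x, -U⟩ : ℂ) * h ⟨x, -U⟩)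
      - (∫ x in (-1 / 2 : ℝ)..(3 / 2), XL (⟨x, U⟩ : ℂ) * h ⟨x, U⟩)
      + I * (∫ y in (-U)..U, XL (3 / 2 + y * I) * (h (3 / 2 + y * I) + h (-1 / 2 - y * I)))
      = 2 * Real.pi * I * ∑ᶠ s ∈ ZU U, (mult s : ℂ) * h s := by
  have hset : {s | s ∈ Set.Ioo (-1 / 2 : ℝ) (3 / 2) ×ℂ Set.Ioo (-U) U ∧ Xi s = 0} = ZU U := by
    ext s
    constructor
    · rintro ⟨h1, h2⟩
      exact ⟨(Xi_mem s).1 h2, abs_lt.2 h1.2⟩
    · rintro ⟨h1, h2⟩
      refine ⟨⟨⟨?_, ?_⟩, abs_lt.1 h2⟩, (Xi_mem s).2 h1⟩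
      · have := h1.2.1
        linarith
      · have := h1.2.2
        linarith
  have key := H370.rect_residue Xi h (-1 / 2) (3 / 2) (-U) U (by norm_num) (by linarith)
    (fun s _ => Xi_an s) hh (by
      intro s hs h0
      have hZ := (Xi_mem s).1 h0
      refine ⟨⟨?_, ?_⟩, ?_, ?_⟩
      · have := hZ.2.1
        linarith
      · have := hZ.2.2
        linarith
      · have h1 : -U ≤ s.im := hs.2.1
        refine lt_of_le_of_ne h1 fun he => ?_
        have h2 := (hne s.re hs.1).2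
        have e : (⟨s.re, -U⟩ : ℂ) = s := by
          apply Complex.ext
          · rfl
          · exact he
        rw [e] at h2
        exact h2 h0
      · have h1 : s.im ≤ U := hs.2.2
        refine lt_of_le_of_ne h1 fun he => ?_
        have h2 := (hne s.re hs.1).1
        have e : (⟨s.re, U⟩ : ℂ) = s := by
          apply Complex.ext
          · rfl
          · exact he.symm
        rw [e] at h2
        exact h2 h0)
  rw [hset] at key
  obtain ⟨hfin, key⟩ := key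
  refine ⟨hfin, ?_⟩
  have hsum : ∑ᶠ s ∈ ZU U, (H370.mult Xi s : ℂ) * h s = ∑ᶠ s ∈ ZU U, (mult s : ℂ) * h s := by
    apply finsum_mem_congr rfl
    intro s hs
    rw [Xi_mult hs.1]
  rw [hsum] at key
  rw [← key]
  have hXL : ∀ z : ℂ, deriv Xi z / Xi z = XL z := fun z => rfl
  simp only [hXL]
  -- vertical sides
  have hre : ∀ v : ℝ, (3 / 2 + v * I : ℂ).re = 3 / 2 := by
    intro v
    simp
  have hneR : ∀ v : ℝ, Xi (3 / 2 + v * I) ≠ 0 := by
    intro v h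
    rw [Xi_mem] at h
    have := h.2.2
    rw [hre] at this
    norm_num at this
  have hcont : Continuous (fun v : ℝ => XL (3 / 2 + v * I)) := by
    unfold XL
    have h1 : Continuous (deriv Xi) := by
      have : ContDiff ℂ 1 Xi := Xi_diff.contDiff
      exact this.continuous_deriv le_rfl
    have h2 : Continuous (fun v : ℝ => (3 / 2 + v * I : ℂ)) := by fun_prop
    exact (h1.comp h2).div (Xi_diff.continuous.comp h2) hneR
  have e1 : ∀ y : ℝ, (⟨3 / 2, y⟩ : ℂ) = 3 / 2 + y * I := by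
    intro y
    apply Complex.ext <;> simp
  have e2 : ∀ y : ℝ, (⟨-1 / 2, y⟩ : ℂ) = -1 / 2 - ((-y : ℝ) : ℂ) * I := by
    intro y
    apply Complex.ext <;> simp
  have e3 : ∀ y : ℝ, XL (⟨-1 / 2, y⟩ : ℂ) = - XL (3 / 2 + ((-y : ℝ) : ℂ) * I) := by
    intro y
    rw [← XL_symm]
    congr 1
    apply Complex.ext <;> simp <;> norm_num
  have e4 : ∫ y in (-U)..U, XL (⟨-1 / 2, y⟩ : ℂ) * h ⟨-1 / 2, y⟩ =
      - ∫ y in (-U)..U, XL (3 / 2 + y * I) * h (-1 / 2 - y * I) := by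
    have h1 := intervalIntegral.integral_comp_neg (a := -U) (b := U)
      (fun y : ℝ => XL (3 / 2 + y * I) * h (-1 / 2 - y * I))
    rw [neg_neg] at h1
    rw [← h1, ← intervalIntegral.integral_neg]
    apply intervalIntegral.integral_congr
    intro y _
    simp only
    rw [e3, e2]
    ring
  have e5 : ∫ y in (-U)..U, XL (3 / 2 + y * I) * (h (3 / 2 + y * I) + h (-1 / 2 - y * I)) =
      (∫ y in (-U)..U, XL (⟨3 / 2, y⟩ : ℂ) * h ⟨3 / 2, y⟩) +
      ∫ y in (-U)..U, XL (3 / 2 + y * I) * h (-1 / 2 - y * I) := by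
    rw [← intervalIntegral.integral_add]
    · apply intervalIntegral.integral_congr
      intro y _
      simp only
      rw [e1]
      ring
    · apply Continuous.intervalIntegrable
      have hc := hh.continuous
      simp only [e1]
      exact hcont.mul (by fun_prop)
    · apply Continuous.intervalIntegrable
      have hc := hh.continuous
      exact hcont.mul (by fun_prop)
  rw [e4, e5]
  ring

theorem ZU_finite (T : ℝ) : (ZU T).Finite := by
  obtain ⟨C, hC, h⟩ := good_height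
  obtain ⟨U, hU, h1⟩ := h (max T 3) (le_max_right _ _)
  have hU3 : 3 ≤ U := (le_max_right _ _).trans hU.1
  have hUT : T ≤ U := (le_max_left _ _).trans hU.1
  have h2 := (rect U (by linarith) (fun σ hσ => ⟨(h1 σ hσ).1.1, (h1 σ hσ).2.1⟩) (fun _ => 0)
    (by fun_prop)).1
  refine h2.subset ?_
  rintro s ⟨h3, h4⟩
  exact ⟨h3, h4.trans_le hUT⟩

theorem upper_le {C : ℝ} (hz : ∀ t : ℝ, 3 ≤ t →
    (H370.NN riemannZeta (t - 1) (t + 1) : ℝ) ≤ C * Real.log t) (n : ℕ) (hn : 3 ≤ n)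
    (w : Finset ℂ) (hw : ∀ s ∈ w, s ∈ Zr ∧ (n : ℝ) ≤ s.im ∧ s.im < n + 1) :
    ∑ s ∈ w, (mult s : ℝ) ≤ C * Real.log n := by
  have hn' : (3 : ℝ) ≤ n := by exact_mod_cast hn
  have hfin := H370.zset_finite H370.good_zeta ((n : ℝ) - 1) (n + 1) (by linarith)
  have hNN : H370.NN riemannZeta ((n : ℝ) - 1) (n + 1) =
      ∑ s ∈ hfin.toFinset, H370.mult riemannZeta s := by
    unfold H370.NN
    exact finsum_mem_eq_finite_toFinset_sum _ hfin
  have h1 : ∑ s ∈ w, mult s ≤ H370.NN riemannZeta ((n : ℝ) - 1) (n + 1) := by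
    rw [hNN]
    refine Finset.sum_le_sum_of_subset ?_
    intro s hs
    obtain ⟨⟨h2, h3, h4⟩, h5, h6⟩ := hw s hs
    rw [Set.Finite.mem_toFinset]
    exact ⟨h3, h4, by linarith, by linarith, h2⟩
  have h2 := hz n hn'
  have h3 : ((∑ s ∈ w, mult s : ℕ) : ℝ) ≤ H370.NN riemannZeta ((n : ℝ) - 1) (n + 1) := by
    exact_mod_cast h1
  push_cast at h3
  linarith

theorem fiber_bound : ∃ M : ℕ → ℝ, (∀ n, 0 ≤ M n) ∧
    Summable (fun n : ℕ => M n / (1 + (n : ℝ) ^ 2)) ∧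
    ∀ (w : Finset ℂ) (n : ℕ), (∀ s ∈ w, s ∈ Zr ∧ (n : ℝ) ≤ |s.im| ∧ |s.im| < n + 1) →
      ∑ s ∈ w, (mult s : ℝ) ≤ M n := by
  classical
  obtain ⟨C, hC, hz⟩ := H370.zcount H370.good_zeta
  set B : ℝ := ∑ s ∈ (ZU_finite 4).toFinset, (mult s : ℝ) with hB
  have hB0 : 0 ≤ B := Finset.sum_nonneg fun s _ => Nat.cast_nonneg _
  refine ⟨fun n => B + 4 * C * ((n : ℝ) + 1) ^ (1 / 2 : ℝ), fun n => by positivity, ?_, ?_⟩
  · have hs : Summable (fun n : ℕ => 1 / |(n : ℝ) + 1| ^ (3 / 2 : ℝ)) :=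
      (Real.summable_one_div_nat_add_rpow 1 (3 / 2)).2 (by norm_num)
    refine Summable.of_nonneg_of_le (fun n => by positivity) (fun n => ?_)
      (hs.mul_left (2 * (B + 4 * C)))
    have hn0 : (0 : ℝ) ≤ n := Nat.cast_nonneg n
    rw [abs_of_nonneg (by linarith), div_le_iff₀ (by positivity)]
    have h1 : 1 ≤ ((n : ℝ) + 1) ^ (1 / 2 : ℝ) := Real.one_le_rpow (by linarith) (by norm_num)
    have h2 : ((n : ℝ) + 1) ^ (1 / 2 : ℝ) * ((n : ℝ) + 1) ^ (3 / 2 : ℝ) = ((n : ℝ) + 1) ^ 2 := by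
      rw [← Real.rpow_add (by linarith)]
      norm_num
    have h3 : 0 < ((n : ℝ) + 1) ^ (3 / 2 : ℝ) := by positivity
    have h4 : ((n : ℝ) + 1) ^ 2 ≤ 2 * (1 + (n : ℝ) ^ 2) := by nlinarith [sq_nonneg ((n : ℝ) - 1)]
    have h5 : 2 * (B + 4 * C) * (1 / ((n : ℝ) + 1) ^ (3 / 2 : ℝ)) * (1 + (n : ℝ) ^ 2) =
        (B + 4 * C) * (2 * (1 + (n : ℝ) ^ 2)) / ((n : ℝ) + 1) ^ (3 / 2 : ℝ) := by
      field_simp
    rw [h5, le_div_iff₀ h3]
    have h6 : B + 4 * C * ((n : ℝ) + 1) ^ (1 / 2 : ℝ) ≤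
        (B + 4 * C) * ((n : ℝ) + 1) ^ (1 / 2 : ℝ) := by nlinarith
    calc (B + 4 * C * ((n : ℝ) + 1) ^ (1 / 2 : ℝ)) * ((n : ℝ) + 1) ^ (3 / 2 : ℝ)
        ≤ (B + 4 * C) * ((n : ℝ) + 1) ^ (1 / 2 : ℝ) * ((n : ℝ) + 1) ^ (3 / 2 : ℝ) := by
          gcongr
      _ = (B + 4 * C) * ((n : ℝ) + 1) ^ 2 := by rw [mul_assoc, h2]
      _ ≤ (B + 4 * C) * (2 * (1 + (n : ℝ) ^ 2)) := by gcongr
  · intro w n hw
    have hpow : 0 ≤ 4 * C * ((n : ℝ) + 1) ^ (1 / 2 : ℝ) := by positivity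
    by_cases hn : n < 3
    · have h1 : ∑ s ∈ w, (mult s : ℝ) ≤ B := by
        rw [hB]
        refine Finset.sum_le_sum_of_subset_of_nonneg ?_ fun s _ _ => Nat.cast_nonneg _
        intro s hs
        rw [Set.Finite.mem_toFinset]
        obtain ⟨h2, -, h3⟩ := hw s hs
        refine ⟨h2, h3.trans_le ?_⟩
        have : (n : ℝ) < 3 := by exact_mod_cast hn
        linarith
      simp only
      linarith
    · push Not at hn
      have hn' : (3 : ℝ) ≤ n := by exact_mod_cast hn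
      have hsplit : ∑ s ∈ w, (mult s : ℝ) = ∑ s ∈ w.filter (fun s => 0 ≤ s.im), (mult s : ℝ) +
          ∑ s ∈ w.filter (fun s => ¬ 0 ≤ s.im), (mult s : ℝ) :=
        (Finset.sum_filter_add_sum_filter_not w _ _).symm
      have h1 : ∑ s ∈ w.filter (fun s => 0 ≤ s.im), (mult s : ℝ) ≤ C * Real.log n := by
        refine upper_le hz n hn _ fun s hs => ?_
        rw [Finset.mem_filter] at hs
        obtain ⟨a, b, c⟩ := hw s hs.1
        rw [abs_of_nonneg hs.2] at b c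
        exact ⟨a, b, c⟩
      have h2 : ∑ s ∈ w.filter (fun s => ¬ 0 ≤ s.im), (mult s : ℝ) ≤ C * Real.log n := by
        have hinj : Function.Injective (fun s : ℂ => 1 - s) := fun a b hab => by
          simpa using hab
        have h3 : ∑ s ∈ (w.filter (fun s => ¬ 0 ≤ s.im)).image (fun s => 1 - s), (mult s : ℝ) =
            ∑ s ∈ w.filter (fun s => ¬ 0 ≤ s.im), (mult s : ℝ) := by
          rw [Finset.sum_image (fun a _ b _ hab => hinj hab)]
          refine Finset.sum_congr rfl fun s hs => ?_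
          rw [Finset.mem_filter] at hs
          rw [mult_symm (hw s hs.1).1]
        rw [← h3]
        refine upper_le hz n hn _ fun s hs => ?_
        rw [Finset.mem_image] at hs
        obtain ⟨t, ht, rfl⟩ := hs
        rw [Finset.mem_filter] at ht
        obtain ⟨a, b, c⟩ := hw t ht.1
        have hneg := ht.2
        push Not at hneg
        rw [abs_of_neg hneg] at b c
        refine ⟨Zr_symm a, ?_, ?_⟩
        · simpa using b
        · simpa using c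
      have h4 : Real.log n ≤ (n : ℝ) ^ (1 / 2 : ℝ) / (1 / 2) :=
        Real.log_le_rpow_div (by linarith) (by norm_num)
      have h5 : (n : ℝ) ^ (1 / 2 : ℝ) ≤ ((n : ℝ) + 1) ^ (1 / 2 : ℝ) :=
        Real.rpow_le_rpow (by linarith) (by linarith) (by norm_num)
      have h6 : C * Real.log n ≤ 2 * C * ((n : ℝ) + 1) ^ (1 / 2 : ℝ) := by
        have : Real.log n ≤ 2 * ((n : ℝ) + 1) ^ (1 / 2 : ℝ) := by linarith
        nlinarith
      simp only
      rw [hsplit]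
      linarith

theorem zr_summable : Summable (fun ρ : Zr => (mult (ρ : ℂ) : ℝ) / (1 + (ρ : ℂ).im ^ 2)) := by
  classical
  obtain ⟨M, hM0, hMs, hM⟩ := fiber_bound
  refine summable_of_sum_le (c := ∑' n : ℕ, M n / (1 + (n : ℝ) ^ 2)) (fun ρ => by positivity)
    fun u => ?_
  set N : Zr → ℕ := fun ρ => ⌊|(ρ : ℂ).im|⌋₊ with hN
  have h1 : ∑ ρ ∈ u, (mult (ρ : ℂ) : ℝ) / (1 + (ρ : ℂ).im ^ 2) =
      ∑ n ∈ u.image N, ∑ ρ ∈ u.filter (fun ρ => N ρ = n),
        (mult (ρ : ℂ) : ℝ) / (1 + (ρ : ℂ).im ^ 2) :=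
    (Finset.sum_fiberwise_of_maps_to (fun ρ hρ => Finset.mem_image_of_mem N hρ) _).symm
  rw [h1]
  refine le_trans (Finset.sum_le_sum fun n _ => ?_)
    (hMs.sum_le_tsum (u.image N) fun n _ => div_nonneg (hM0 n) (by positivity))
  have hflo : ∀ ρ ∈ u.filter (fun ρ => N ρ = n), (n : ℝ) ≤ |(ρ : ℂ).im| ∧ |(ρ : ℂ).im| < n + 1 := by
    intro ρ hρ
    rw [Finset.mem_filter] at hρ
    have h2 := (Nat.floor_eq_iff (abs_nonneg (ρ : ℂ).im)).1 hρ.2
    exact h2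
  have h2 : ∑ ρ ∈ u.filter (fun ρ => N ρ = n), (mult (ρ : ℂ) : ℝ) / (1 + (ρ : ℂ).im ^ 2) ≤
      ∑ ρ ∈ u.filter (fun ρ => N ρ = n), (mult (ρ : ℂ) : ℝ) / (1 + (n : ℝ) ^ 2) := by
    refine Finset.sum_le_sum fun ρ hρ => ?_
    have h3 := (hflo ρ hρ).1
    have h4 : (n : ℝ) ^ 2 ≤ (ρ : ℂ).im ^ 2 := by
      rw [← sq_abs (ρ : ℂ).im]
      exact pow_le_pow_left₀ (Nat.cast_nonneg n) h3 2
    gcongr
  refine h2.trans ?_
  rw [← Finset.sum_div]
  refine div_le_div_of_nonneg_right ?_ (by positivity)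
  have h5 := hM ((u.filter (fun ρ => N ρ = n)).map (Function.Embedding.subtype _)) n (by
    intro s hs
    rw [Finset.mem_map] at hs
    obtain ⟨ρ, hρ, rfl⟩ := hs
    exact ⟨ρ.2, hflo ρ hρ⟩)
  rw [Finset.sum_map] at h5
  exact h5

end Pool.Agent.W8.WP
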