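import Pool.Agent.W187.WP.Stmts
import Pool.Agent.H370R2.Count
import Pool.Agent.H370R2.DirGood

/-!
# The entire function Xi and its zeros
-/

open Complex MeasureTheory Set Filter Topology

namespace Pool.Agent.W8.WP

open Pool.Agent.W187.WP (Zr lap LL)

/-- `s (s - 1)` times the completed zeta function -/
noncomputable def Xi (s : ℂ) : ℂ := s * (s - 1) * completedRiemannZeta₀ s + 1

theorem Xi_diff : Differentiable ℂ Xi := by
  unfold Xi
  have := differentiable_completedZeta₀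
  fun_prop

theorem Xi_an (s : ℂ) : AnalyticAt ℂ Xi s := Xi_diff.analyticAt s

theorem Xi_symm (s : ℂ) : Xi (1 - s) = Xi s := by
  unfold Xi
  rw [completedRiemannZeta₀_one_sub]
  ring

theorem Xi_eq {s : ℂ} (h0 : s ≠ 0) (h1 : s ≠ 1) (hG : Gammaℝ s ≠ 0) :
    Xi s = s * (s - 1) * (Gammaℝ s * riemannZeta s) := by
  rw [riemannZeta_def_of_ne_zero h0, mul_div_cancel₀ _ hG, completedRiemannZeta_eq]
  unfold Xi
  have h2 : (1 : ℂ) - s ≠ 0 := sub_ne_zero.2 h1.symm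
  field_simp
  ring

theorem Xi_one : Xi 1 = 1 := by simp [Xi]

theorem Xi_zero_pos {s : ℂ} (hs : 0 < s.re) : Xi s = 0 ↔ riemannZeta s = 0 ∧ s.re < 1 := by
  have h0 : s ≠ 0 := by
    rintro rfl
    simp at hs
  by_cases h1 : s = 1
  · subst h1
    simp [Xi_one]
  · rw [Xi_eq h0 h1 (Gammaℝ_ne_zero_of_re_pos hs)]
    have h2 : s - 1 ≠ 0 := sub_ne_zero.2 h1
    simp only [mul_eq_zero, h0, h2, Gammaℝ_ne_zero_of_re_pos hs, false_or]
    constructor
    · intro h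
      refine ⟨h, ?_⟩
      by_contra hcon
      exact riemannZeta_ne_zero_of_one_le_re (not_lt.1 hcon) h
    · exact fun h => h.1

theorem Xi_mem (s : ℂ) : Xi s = 0 ↔ s ∈ Zr := by
  constructor
  · intro h
    by_cases hs : 0 < s.re
    · have := (Xi_zero_pos hs).1 h
      exact ⟨this.1, hs, this.2⟩
    · exfalso
      rw [← Xi_symm] at h
      have h1 : 0 < (1 - s).re := by
        simp only [sub_re, one_re]
        linarith
      have := ((Xi_zero_pos h1).1 h).2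
      simp only [sub_re, one_re] at this
      linarith
  · rintro ⟨h1, h2, h3⟩
    exact (Xi_zero_pos h2).2 ⟨h1, h3⟩

theorem an_Gammaℝ {s : ℂ} (hs : 0 < s.re) : AnalyticAt ℂ Gammaℝ s := by
  have h1 : AnalyticAt ℂ (fun z => ((Gammaℝ z)⁻¹)⁻¹) s :=
    (differentiable_Gammaℝ_inv.analyticAt s).fun_inv (inv_ne_zero (Gammaℝ_ne_zero_of_re_pos hs))
  simpa using h1

theorem an_zeta {s : ℂ} (hs : s ≠ 1) : AnalyticAt ℂ riemannZeta s := by
  rw [Complex.analyticAt_iff_eventually_differentiableAt]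
  filter_upwards [isOpen_ne.mem_nhds hs] with z hz
  exact differentiableAt_riemannZeta hz

theorem Xi_ev {s : ℂ} (hs : 0 < s.re) (h1 : s ≠ 1) :
    Xi =ᶠ[𝓝 s] (fun z => z * (z - 1) * Gammaℝ z) * riemannZeta := by
  have h0 : ∀ᶠ z in 𝓝 s, 0 < z.re := continuous_re.continuousAt.eventually (lt_mem_nhds hs)
  filter_upwards [h0, isOpen_ne.mem_nhds h1] with z hz hz1
  have hz0 : z ≠ 0 := by
    rintro rfl
    simp at hz
  rw [Xi_eq hz0 hz1 (Gammaℝ_ne_zero_of_re_pos hz)]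
  simp only [Pi.mul_apply]
  ring

theorem Xi_order {s : ℂ} (hs : 0 < s.re) (hs1 : s.re < 1) :
    analyticOrderAt Xi s = analyticOrderAt riemannZeta s := by
  have h1 : s ≠ 1 := by
    rintro rfl
    simp at hs1
  have h0 : s ≠ 0 := by
    rintro rfl
    simp at hs
  rw [analyticOrderAt_congr (Xi_ev hs h1)]
  have ha : AnalyticAt ℂ (fun z => z * (z - 1) * Gammaℝ z) s := by
    have := an_Gammaℝ hs
    fun_prop
  rw [analyticOrderAt_mul ha (an_zeta h1)]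
  have hne : (fun z => z * (z - 1) * Gammaℝ z) s ≠ 0 :=
    mul_ne_zero (mul_ne_zero h0 (sub_ne_zero.2 h1)) (Gammaℝ_ne_zero_of_re_pos hs)
  rw [ha.analyticOrderAt_eq_zero.2 hne, zero_add]

theorem Xi_mult {s : ℂ} (hs : s ∈ Zr) : H370.mult Xi s = Pool.Agent.W187.WP.mult s := by
  unfold H370.mult Pool.Agent.W187.WP.mult analyticOrderNatAt
  rw [Xi_order hs.2.1 hs.2.2]

theorem Zr_symm {s : ℂ} (hs : s ∈ Zr) : 1 - s ∈ Zr := by
  rw [← Xi_mem] at hs ⊢
  rw [Xi_symm, hs]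

theorem Xi_mult_symm (s : ℂ) : H370.mult Xi (1 - s) = H370.mult Xi s := by
  unfold H370.mult analyticOrderNatAt
  have h1 : Xi = Xi ∘ (fun z => 1 - z) := by
    funext z
    simp [Xi_symm]
  have hd : deriv (fun z : ℂ => 1 - z) s ≠ 0 := by
    simp
  have h2 := analyticOrderAt_comp_of_deriv_ne_zero (f := Xi) (g := fun z : ℂ => 1 - z) (z₀ := s)
    (by fun_prop) hd
  rw [← h1] at h2
  rw [h2]

theorem mult_symm {s : ℂ} (hs : s ∈ Zr) :
    Pool.Agent.W187.WP.mult (1 - s) = Pool.Agent.W187.WP.mult s := by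
  rw [← Xi_mult hs, ← Xi_mult (Zr_symm hs), Xi_mult_symm]

/-- the logarithmic derivative of `Xi` -/
noncomputable def XL (s : ℂ) : ℂ := deriv Xi s / Xi s

theorem XL_symm (s : ℂ) : XL (1 - s) = - XL s := by
  unfold XL
  rw [Xi_symm]
  have h1 : deriv Xi s = - deriv Xi (1 - s) := by
    have h2 : Xi = Xi ∘ (fun z => 1 - z) := by
      funext z
      simp [Xi_symm]
    have hd : HasDerivAt (fun z : ℂ => 1 - z) (-1) s := by
      simpa using (hasDerivAt_id s).const_sub 1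
    have h3 := (Xi_diff (1 - s)).hasDerivAt.comp s hd
    rw [← h2] at h3
    rw [h3.deriv]
    ring
  rw [h1]
  ring

theorem Xi_ev' {s : ℂ} (hGa : AnalyticAt ℂ Gammaℝ s) (hG : Gammaℝ s ≠ 0) (h0 : s ≠ 0)
    (h1 : s ≠ 1) : Xi =ᶠ[𝓝 s] (fun z => z * (z - 1) * Gammaℝ z) * riemannZeta := by
  have hG' : ∀ᶠ z in 𝓝 s, Gammaℝ z ≠ 0 := hGa.continuousAt.eventually_ne hG
  filter_upwards [hG', isOpen_ne.mem_nhds h0, isOpen_ne.mem_nhds h1] with z hz hz0 hz1
  rw [Xi_eq hz0 hz1 hz]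
  simp only [Pi.mul_apply]
  ring

theorem XL_eq' {s : ℂ} (hGa : AnalyticAt ℂ Gammaℝ s) (hG : Gammaℝ s ≠ 0) (h0 : s ≠ 0)
    (h1 : s ≠ 1) (hz : riemannZeta s ≠ 0) :
    XL s = 1 / s + 1 / (s - 1) + logDeriv Gammaℝ s + deriv riemannZeta s / riemannZeta s := by
  have hGd := hGa.differentiableAt
  have hZd := (an_zeta h1).differentiableAt
  have hev := Xi_ev' hGa hG h0 h1
  unfold XL
  have e1 : deriv Xi s / Xi s = logDeriv ((fun z => z * (z - 1) * Gammaℝ z) * riemannZeta) s := by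
    rw [logDeriv_apply, hev.deriv_eq, hev.eq_of_nhds]
  have e0 : ((fun z : ℂ => z * (z - 1) * Gammaℝ z) * riemannZeta) =
      fun z : ℂ => (z * (z - 1) * Gammaℝ z) * riemannZeta z := rfl
  rw [e1, e0, logDeriv_mul (f := fun z : ℂ => z * (z - 1) * Gammaℝ z) (g := riemannZeta) s
      (mul_ne_zero (mul_ne_zero h0 (sub_ne_zero.2 h1)) hG) hz (by fun_prop) hZd,
    logDeriv_mul (f := fun z : ℂ => z * (z - 1)) (g := Gammaℝ) s
      (mul_ne_zero h0 (sub_ne_zero.2 h1)) hG (by fun_prop) hGd,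
    logDeriv_mul (f := fun z : ℂ => z) (g := fun z : ℂ => z - 1) s
      h0 (sub_ne_zero.2 h1) (by fun_prop) (by fun_prop)]
  have e2 : logDeriv (fun z : ℂ => z) s = 1 / s := by
    rw [logDeriv_apply]
    simp
  have e3 : logDeriv (fun z : ℂ => z - 1) s = 1 / (s - 1) := by
    rw [logDeriv_apply]
    simp
  rw [e2, e3, logDeriv_apply riemannZeta]

theorem XL_eq {s : ℂ} (hs : 0 < s.re) (h1 : s ≠ 1) (hz : riemannZeta s ≠ 0) :
    XL s = 1 / s + 1 / (s - 1) + logDeriv Gammaℝ s + deriv riemannZeta s / riemannZeta s := by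
  have h0 : s ≠ 0 := by
    rintro rfl
    simp at hs
  exact XL_eq' (an_Gammaℝ hs) (Gammaℝ_ne_zero_of_re_pos hs) h0 h1 hz

theorem XL_eq_im {s : ℂ} (hs : s.im ≠ 0) (hz : riemannZeta s ≠ 0) :
    XL s = 1 / s + 1 / (s - 1) + logDeriv Gammaℝ s + deriv riemannZeta s / riemannZeta s :=
  XL_eq' (H370.DL.analyticAt_Gammaℝ hs) (H370.DL.Gammaℝ_ne_zero_of_im hs)
    (H370.DL.ne_zero_of_im hs) (H370.DL.ne_one_of_im hs) hz

theorem Xi_ne_im {s : ℂ} (hs : s.im ≠ 0) (hz : riemannZeta s ≠ 0) : Xi s ≠ 0 := by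
  rw [Xi_eq (H370.DL.ne_zero_of_im hs) (H370.DL.ne_one_of_im hs) (H370.DL.Gammaℝ_ne_zero_of_im hs)]
  exact mul_ne_zero (mul_ne_zero (H370.DL.ne_zero_of_im hs)
    (sub_ne_zero.2 (H370.DL.ne_one_of_im hs))) (mul_ne_zero (H370.DL.Gammaℝ_ne_zero_of_im hs) hz)

theorem logDeriv_GR {s : ℂ} (hs : 0 < s.re) :
    logDeriv Gammaℝ s = - Real.log Real.pi / 2 + logDeriv Gamma (s / 2) / 2 := by
  have hpi : (Real.pi : ℂ) ≠ 0 := by exact_mod_cast Real.pi_ne_zero
  have hs2 : 0 < (s / 2).re := by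
    have : (s / 2).re = s.re / 2 := by simp
    rw [this]; linarith
  have hG : Gamma (s / 2) ≠ 0 := Gamma_ne_zero_of_re_pos hs2
  have hne : ∀ m : ℕ, s / 2 ≠ -m := by
    intro m h
    rw [h] at hs2
    simp at hs2
    have : (0 : ℝ) ≤ m := Nat.cast_nonneg m
    linarith
  have d1 : HasDerivAt (fun z : ℂ => z / 2) (1 / 2) s := (hasDerivAt_id s).div_const 2
  have d2 : HasDerivAt (fun z : ℂ => Gamma (z / 2)) (deriv Gamma (s / 2) * (1 / 2)) s :=
    HasDerivAt.comp s (differentiableAt_Gamma _ hne).hasDerivAt d1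
  have d3 : HasDerivAt (fun z : ℂ => (Real.pi : ℂ) ^ (-z / 2))
      ((Real.pi : ℂ) ^ (-s / 2) * Complex.log Real.pi * (-1 / 2)) s := by
    have h := (((hasDerivAt_id s).neg).div_const 2).const_cpow (c := (Real.pi : ℂ)) (Or.inl hpi)
    simpa using h
  have hpc : (Real.pi : ℂ) ^ (-s / 2) ≠ 0 := by
    rw [Ne, cpow_eq_zero_iff]
    exact fun h => hpi h.1
  have d4 := d3.mul d2
  have hG' : Gammaℝ = fun z => (Real.pi : ℂ) ^ (-z / 2) * Gamma (z / 2) := by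
    funext z
    rfl
  rw [logDeriv_apply, logDeriv_apply, hG']
  erw [d4.deriv]
  rw [← Complex.ofReal_log Real.pi_pos.le]
  field_simp

theorem XL_LL {s : ℂ} (hs : 1 < s.re) : XL s = LL s := by
  have h1 : s ≠ 1 := by
    rintro rfl
    simp at hs
  rw [XL_eq (by linarith) h1 (riemannZeta_ne_zero_of_one_le_re hs.le), logDeriv_GR (by linarith)]
  unfold LL
  ring

/-- good heights for `Xi` -/
theorem good_height : ∃ C : ℝ, 0 < C ∧ ∀ T : ℝ, 3 ≤ T →
    ∃ U ∈ Set.Icc T (T + 1), ∀ σ ∈ Set.Icc (-1 / 2 : ℝ) (3 / 2),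
      (Xi (⟨σ, U⟩ : ℂ) ≠ 0 ∧ ‖XL (⟨σ, U⟩ : ℂ)‖ ≤ C * (Real.log T) ^ 2) ∧
      (Xi (⟨σ, -U⟩ : ℂ) ≠ 0 ∧ ‖XL (⟨σ, -U⟩ : ℂ)‖ ≤ C * (Real.log T) ^ 2) := by
  obtain ⟨C, hC, hgh⟩ := H370.good_height H370.good_zeta
  obtain ⟨C1, hC1, hG⟩ := H370.DL.logDeriv_Gammaℝ_bound
  refine ⟨C + C1 + 3, by positivity, fun T hT => ?_⟩
  obtain ⟨U, hU, hU2⟩ := hgh T hT
  have hUpos : 3 ≤ U := hT.trans hU.1
  have hlT : 1 ≤ Real.log T := H370.Loc.one_le_log hT
  have hlU : Real.log U ≤ 2 * Real.log T :=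
    (Real.log_le_log (by linarith) (by linarith [hU.2])).trans (H370.Loc.log_le_two_log hT)
  have hlU0 : 0 ≤ Real.log U := Real.log_nonneg (by linarith)
  have key : ∀ σ ∈ Set.Icc (-1 / 2 : ℝ) (3 / 2), Xi (⟨σ, U⟩ : ℂ) ≠ 0 ∧
      ‖XL (⟨σ, U⟩ : ℂ)‖ ≤ (C + C1 + 3) * (Real.log T) ^ 2 := by
    intro σ hσ
    obtain ⟨hz, hb⟩ := hU2 σ hσ
    have him : (⟨σ, U⟩ : ℂ).im ≠ 0 := by
      simp only
      linarith
    refine ⟨Xi_ne_im him hz, ?_⟩
    rw [XL_eq_im him hz]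
    have b1 : ‖(1 : ℂ) / ⟨σ, U⟩‖ ≤ 1 := by
      rw [norm_div, norm_one, div_le_one]
      · have := Complex.abs_im_le_norm (⟨σ, U⟩ : ℂ)
        simp only at this
        rw [abs_of_nonneg (by linarith)] at this
        linarith
      · have := Complex.abs_im_le_norm (⟨σ, U⟩ : ℂ)
        simp only at this
        rw [abs_of_nonneg (by linarith)] at this
        linarith
    have b2 : ‖(1 : ℂ) / ((⟨σ, U⟩ : ℂ) - 1)‖ ≤ 1 := by
      have := Complex.abs_im_le_norm ((⟨σ, U⟩ : ℂ) - 1)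
      simp only [sub_im, one_im, sub_zero] at this
      rw [abs_of_nonneg (by linarith)] at this
      rw [norm_div, norm_one, div_le_one (by linarith)]
      linarith
    have b3 : ‖logDeriv Gammaℝ (⟨σ, U⟩ : ℂ)‖ ≤ C1 + Real.log T := by
      have h := hG ⟨σ, U⟩ (by simpa using hσ.1) (by simp only; linarith [hσ.2])
        (by simp only; rw [abs_of_nonneg (by linarith)]; linarith)
      simp only at h
      have e : logDeriv Gammaℝ (⟨σ, U⟩ : ℂ) = (logDeriv Gammaℝ (⟨σ, U⟩ : ℂ) -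
          1 / 2 * Real.log |U|) + ((1 / 2 * Real.log |U| : ℝ) : ℂ) := by
        push_cast
        ring
      rw [e]
      refine (norm_add_le _ _).trans (add_le_add h ?_)
      rw [Complex.norm_real, Real.norm_eq_abs, abs_of_nonneg (a := U) (by linarith),
        abs_of_nonneg (by linarith)]
      linarith
    calc _ ≤ ‖(1 : ℂ) / ⟨σ, U⟩ + 1 / ((⟨σ, U⟩ : ℂ) - 1) + logDeriv Gammaℝ (⟨σ, U⟩ : ℂ)‖ +
          ‖deriv riemannZeta (⟨σ, U⟩ : ℂ) / riemannZeta (⟨σ, U⟩ : ℂ)‖ := norm_add_le _ _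
      _ ≤ (‖(1 : ℂ) / ⟨σ, U⟩ + 1 / ((⟨σ, U⟩ : ℂ) - 1)‖ + ‖logDeriv Gammaℝ (⟨σ, U⟩ : ℂ)‖) +
          ‖deriv riemannZeta (⟨σ, U⟩ : ℂ) / riemannZeta (⟨σ, U⟩ : ℂ)‖ := by
          gcongr
          exact norm_add_le _ _
      _ ≤ ((‖(1 : ℂ) / ⟨σ, U⟩‖ + ‖1 / ((⟨σ, U⟩ : ℂ) - 1)‖) + ‖logDeriv Gammaℝ (⟨σ, U⟩ : ℂ)‖) +
          ‖deriv riemannZeta (⟨σ, U⟩ : ℂ) / riemannZeta (⟨σ, U⟩ : ℂ)‖ := by
          gcongr
          exact norm_add_le _ _
      _ ≤ ((1 + 1) + (C1 + Real.log T)) + C * (Real.log T) ^ 2 := by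
          gcongr
      _ ≤ (C + C1 + 3) * (Real.log T) ^ 2 := by
          have h2 : 1 ≤ (Real.log T) ^ 2 := by nlinarith
          have h3 : Real.log T ≤ (Real.log T) ^ 2 := by nlinarith
          nlinarith
  refine ⟨U, hU, fun σ hσ => ⟨key σ hσ, ?_⟩⟩
  have e : (⟨σ, -U⟩ : ℂ) = 1 - ⟨1 - σ, U⟩ := by
    apply Complex.ext <;> simp
  rw [e, Xi_symm, XL_symm, norm_neg]
  exact key (1 - σ) ⟨by linarith [hσ.2], by linarith [hσ.1]⟩

/-- bound on the line `Re s = 3/2` -/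
theorem XL_right : ∃ K : ℝ, 0 < K ∧ ∀ v : ℝ, ‖XL (3 / 2 + v * I)‖ ≤ K * (1 + |v|) ^ (1 / 2 : ℝ) := by
  obtain ⟨C1, hC1, hG⟩ := H370.DL.logDeriv_Gammaℝ_bound
  -- compact part
  have hre : ∀ v : ℝ, (3 / 2 + v * I : ℂ).re = 3 / 2 := by
    intro v
    simp
  have him : ∀ v : ℝ, (3 / 2 + v * I : ℂ).im = v := by
    intro v
    simp
  have hne : ∀ v : ℝ, Xi (3 / 2 + v * I) ≠ 0 := by
    intro v h
    rw [Xi_mem] at h
    have := h.2.2
    rw [hre] at this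
    norm_num at this
  have hcont : Continuous (fun v : ℝ => XL (3 / 2 + v * I)) := by
    unfold XL
    have h1 : Continuous (deriv Xi) := by
      have : ContDiff ℂ 1 Xi := Xi_diff.contDiff
      exact this.continuous_deriv le_rfl
    have h2 : Continuous (fun v : ℝ => (3 / 2 + v * I : ℂ)) := by fun_prop
    exact (h1.comp h2).div (Xi_diff.continuous.comp h2) hne
  obtain ⟨K0, hK0⟩ := (isCompact_Icc (a := (-1 : ℝ)) (b := 1)).exists_bound_of_continuousOn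
    hcont.continuousOn
  -- the Dirichlet series
  set D : ℝ := ∑' n : ℕ, ‖LSeries.term (fun n => (ArithmeticFunction.vonMangoldt n : ℂ)) (3 / 2) n‖
    with hD
  have hD0 : 0 ≤ D := tsum_nonneg fun n => norm_nonneg _
  have hsum : Summable fun n : ℕ =>
      ‖LSeries.term (fun n => (ArithmeticFunction.vonMangoldt n : ℂ)) (3 / 2) n‖ :=
    (ArithmeticFunction.LSeriesSummable_vonMangoldt (s := (3 / 2 : ℂ)) (by norm_num)).norm
  have hz : ∀ v : ℝ, ‖deriv riemannZeta (3 / 2 + v * I) / riemannZeta (3 / 2 + v * I)‖ ≤ D := by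
    intro v
    have h1 := ArithmeticFunction.LSeries_vonMangoldt_eq_deriv_riemannZeta_div
      (s := (3 / 2 + v * I : ℂ)) (by rw [hre]; norm_num)
    have h2 : ‖deriv riemannZeta (3 / 2 + v * I) / riemannZeta (3 / 2 + v * I)‖ =
        ‖LSeries (fun n => (ArithmeticFunction.vonMangoldt n : ℂ)) (3 / 2 + v * I)‖ := by
      rw [h1, neg_div, norm_neg]
    rw [h2, LSeries]
    refine tsum_of_norm_bounded hsum.hasSum fun n => ?_
    rw [LSeries.norm_term_eq, LSeries.norm_term_eq, hre]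
    norm_num
  refine ⟨|K0| + 2 + C1 + 1 + D, by positivity, fun v => ?_⟩
  have h1v : 1 ≤ (1 + |v|) ^ (1 / 2 : ℝ) := Real.one_le_rpow (by linarith [abs_nonneg v]) (by norm_num)
  by_cases hv : |v| ≤ 1
  · have h1 := hK0 v (abs_le.1 hv)
    have h2 := le_abs_self K0
    nlinarith [abs_nonneg K0]
  · push Not at hv
    have hvne : (3 / 2 + v * I : ℂ).im ≠ 0 := by
      rw [him]
      rintro rfl
      simp at hv
      linarith
    rw [XL_eq_im hvne (riemannZeta_ne_zero_of_one_le_re (by rw [hre]; norm_num))]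
    have b1 : ‖(1 : ℂ) / (3 / 2 + v * I)‖ ≤ 1 := by
      have := Complex.abs_im_le_norm (3 / 2 + v * I : ℂ)
      rw [him] at this
      rw [norm_div, norm_one, div_le_one (by linarith)]
      linarith
    have b2 : ‖(1 : ℂ) / ((3 / 2 + v * I : ℂ) - 1)‖ ≤ 1 := by
      have := Complex.abs_im_le_norm ((3 / 2 + v * I : ℂ) - 1)
      rw [sub_im, him, one_im, sub_zero] at this
      rw [norm_div, norm_one, div_le_one (by linarith)]
      linarith
    have b3 : ‖logDeriv Gammaℝ (3 / 2 + v * I : ℂ)‖ ≤ C1 + (1 + |v|) ^ (1 / 2 : ℝ) := by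
      have h := hG (3 / 2 + v * I) (by rw [hre]; norm_num) (by rw [hre]; norm_num)
        (by rw [him]; exact hv.le)
      rw [him] at h
      have e : logDeriv Gammaℝ (3 / 2 + v * I : ℂ) = (logDeriv Gammaℝ (3 / 2 + v * I : ℂ) -
          1 / 2 * Real.log |v|) + ((1 / 2 * Real.log |v| : ℝ) : ℂ) := by
        push_cast
        ring
      rw [e]
      refine (norm_add_le _ _).trans (add_le_add h ?_)
      have hl0 : 0 ≤ Real.log |v| := Real.log_nonneg hv.le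
      rw [Complex.norm_real, Real.norm_eq_abs, abs_of_nonneg (by linarith)]
      have h4 : Real.log |v| ≤ |v| ^ (1 / 2 : ℝ) / (1 / 2) :=
        Real.log_le_rpow_div (abs_nonneg v) (by norm_num)
      have h5 : |v| ^ (1 / 2 : ℝ) ≤ (1 + |v|) ^ (1 / 2 : ℝ) :=
        Real.rpow_le_rpow (abs_nonneg v) (by linarith) (by norm_num)
      linarith
    calc _ ≤ ‖(1 : ℂ) / (3 / 2 + v * I) + 1 / ((3 / 2 + v * I : ℂ) - 1) +
            logDeriv Gammaℝ (3 / 2 + v * I : ℂ)‖ +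
          ‖deriv riemannZeta (3 / 2 + v * I) / riemannZeta (3 / 2 + v * I)‖ := norm_add_le _ _
      _ ≤ (‖(1 : ℂ) / (3 / 2 + v * I) + 1 / ((3 / 2 + v * I : ℂ) - 1)‖ +
            ‖logDeriv Gammaℝ (3 / 2 + v * I : ℂ)‖) + D := by
          gcongr
          · exact norm_add_le _ _
          · exact hz v
      _ ≤ ((1 + 1) + (C1 + (1 + |v|) ^ (1 / 2 : ℝ))) + D := by
          gcongr
          exact (norm_add_le _ _).trans (add_le_add b1 b2)
      _ ≤ (|K0| + 2 + C1 + 1 + D) * (1 + |v|) ^ (1 / 2 : ℝ) := by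
          nlinarith [abs_nonneg K0]

end Pool.Agent.W8.WP
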